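import Pool.Agent.Lib.MP_b5021c_nt.IfaceJ

/-!
# Board b5, row CST, part A: coefficients of the completion
-/

namespace Pool.Agent.B5.H59

open scoped LaurentPolynomial

section

variable {O : Type} [CommRing O] [Coef O] {L : Type} [AddCommGroup L]

theorem sharp_single (a : L) (q : RO O) :
    sharp (AddMonoidAlgebra.single a q : AO O L) = AddMonoidAlgebra.single (-a) (rsh q) := by
  simp [sharp, AddMonoidAlgebra.mapDomainRingHom_apply]

omit [Coef O] in
theorem inl_single (a : L) (q : RO O) :
    AddMonoidAlgebra.mapDomainRingHom (RO O) (AddMonoidHom.inl L ℤ) (AddMonoidAlgebra.single a q) =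
      AddMonoidAlgebra.single (a, (0 : ℤ)) q := by
  simp [AddMonoidAlgebra.mapDomainRingHom_apply]

theorem compl_single (a : L) (q : RO O) :
    compl (AddMonoidAlgebra.single a q : AO O L) =
      AddMonoidAlgebra.single (a, (0 : ℤ)) q + AddMonoidAlgebra.single (-a, (1 : ℤ)) (rsh q) := by
  rw [compl, sharp_single, inl_single, inl_single, mon, AddMonoidAlgebra.single_mul_single]
  simp

theorem compl_add (G H : AO O L) : compl (G + H) = compl G + compl H := by
  rw [compl, compl, compl, map_add, map_add, map_add, mul_add]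
  abel

theorem compl_zero : compl (0 : AO O L) = 0 := by
  rw [compl, map_zero, map_zero, map_zero, mul_zero, add_zero]

theorem csum {M : Type} [AddCommMonoid M] (F : L × ℤ → RO O → M) (h0 : ∀ x, F x 0 = 0)
    (ha : ∀ x q r, F x (q + r) = F x q + F x r) (G : AO O L) :
    (compl G).coeff.sum F = G.coeff.sum fun a q => F (a, 0) q + F (-a, 1) (rsh q) := by
  have h0' : ∀ a : L, F (a, 0) 0 + F (-a, 1) (rsh 0) = 0 := fun a => by
    rw [map_zero, h0, h0, add_zero]
  have ha' : ∀ (a : L) (q r : RO O), F (a, 0) (q + r) + F (-a, 1) (rsh (q + r)) =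
      (F (a, 0) q + F (-a, 1) (rsh q)) + (F (a, 0) r + F (-a, 1) (rsh r)) := fun a q r => by
    rw [map_add, ha, ha]; exact add_add_add_comm _ _ _ _
  induction G using AddMonoidAlgebra.induction_linear with
  | zero => rw [compl_zero, AddMonoidAlgebra.coeff_zero, AddMonoidAlgebra.coeff_zero,
      Finsupp.sum_zero_index, Finsupp.sum_zero_index]
  | add G H hG hH =>
    classical
    rw [compl_add, AddMonoidAlgebra.coeff_add, AddMonoidAlgebra.coeff_add,
      Finsupp.sum_add_index' h0 ha, Finsupp.sum_add_index' h0' ha', hG, hH]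
  | single a q =>
    rw [compl_single, AddMonoidAlgebra.coeff_add, AddMonoidAlgebra.coeff_single,
      AddMonoidAlgebra.coeff_single, AddMonoidAlgebra.coeff_single,
      Finsupp.sum_add_index' h0 ha, Finsupp.sum_single_index (h0 _), Finsupp.sum_single_index (h0 _),
      Finsupp.sum_single_index (h0' _)]

theorem compl_coeff (G : AO O L) (a : L) (k : ℤ) :
    (compl G).coeff (a, k) =
      if k = 0 then G.coeff a else if k = 1 then rsh (G.coeff (-a)) else 0 := by
  classical
  induction G using AddMonoidAlgebra.induction_linear with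
  | zero => rw [compl_zero]; simp
  | add G H hG hH =>
    rw [compl_add, AddMonoidAlgebra.coeff_add, Finsupp.add_apply, hG, hH]
    simp only [AddMonoidAlgebra.coeff_add, Finsupp.add_apply, map_add]
    split_ifs <;> simp
  | single b q =>
    rw [compl_single, AddMonoidAlgebra.coeff_add, AddMonoidAlgebra.coeff_single,
      AddMonoidAlgebra.coeff_single, AddMonoidAlgebra.coeff_single, Finsupp.add_apply,
      Finsupp.single_apply, Finsupp.single_apply, Finsupp.single_apply, Finsupp.single_apply]
    by_cases h0 : k = 0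
    · subst h0
      by_cases hb : b = a
      · subst hb; simp
      · simp [hb]
    · by_cases h1 : k = 1
      · subst h1
        by_cases hb : b = -a
        · subst hb; simp
        · have hb' : -b ≠ a := fun h => hb (by rw [← h, neg_neg])
          simp [hb, hb']
      · have e0 : (0 : ℤ) ≠ k := fun h => h0 h.symm
        have e1 : (1 : ℤ) ≠ k := fun h => h1 h.symm
        simp [h0, h1, e0, e1]

theorem rsh_eq_zero {q : RO O} : rsh q = 0 ↔ q = 0 := by
  constructor
  · intro h
    have h1 : AddMonoidAlgebra.mapRingHom ℤ (Coef.conj : O ≃+* O).toRingHom q = 0 := by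
      have h2 : LaurentPolynomial.invert
          (AddMonoidAlgebra.mapRingHom ℤ (Coef.conj : O ≃+* O).toRingHom q) = 0 := h
      exact (map_eq_zero_iff _ (LaurentPolynomial.invert (R := O)).injective).mp h2
    apply AddMonoidAlgebra.ext
    apply Finsupp.ext
    intro n
    have h3 := congrArg (fun p : RO O => p.coeff n) h1
    simp only [AddMonoidAlgebra.coeff_mapRingHom, AddMonoidAlgebra.coeff_zero,
      Finsupp.zero_apply] at h3
    have h4 : (Coef.conj : O ≃+* O) (q.coeff n) = 0 := h3
    exact (map_eq_zero_iff _ (Coef.conj : O ≃+* O).injective).mp h4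
  · rintro rfl
    exact map_zero _

theorem supp_compl (G : AO O L) (x : L × ℤ) :
    x ∈ supp (compl G) ↔ (x.2 = 0 ∧ x.1 ∈ supp G) ∨ (x.2 = 1 ∧ -x.1 ∈ supp G) := by
  obtain ⟨a, k⟩ := x
  simp only [supp, Set.mem_ofPred_eq]
  rw [compl_coeff]
  by_cases h0 : k = 0
  · subst h0; simp
  · by_cases h1 : k = 1
    · subst h1; simp [rsh_eq_zero]
    · simp [h0, h1]

end

end Pool.Agent.B5.H59
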