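import Pool.Agent.Lib.MP_b5021c_nt.B.H59.CstB

/-!
# Board b5, row CST: stability, unitarity, support of the completion
-/

namespace Pool.Agent.B5.H59

open scoped LaurentPolynomial

section

variable {O : Type} [CommRing O] [Coef O] {L : Type} [AddCommGroup L]

theorem sl_eval (u : AddChar L Circle) (lam : L →+ ℤ) (p : CA L) (s : ℂ) :
    (sl u lam p).eval s = p.coeff.sum fun a c => c * (u a : ℂ) * s ^ (lam a).toNat := by
  simp [sl, Finsupp.sum, Polynomial.eval_finsetSum]

theorem spec_sum {M : Type} [AddCommMonoid M] (z : Circle) (G : AO O L) (F : L → ℂ → M)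
    (h0 : ∀ a, F a 0 = 0) :
    (spec z G).coeff.sum F = G.coeff.sum fun a q => F a (evR z q) := by
  have h1 : (spec z G).coeff = G.coeff.mapRange (evR z) (map_zero _) := by
    apply Finsupp.ext
    intro a
    rw [spec_coeff, Finsupp.mapRange_apply]
  rw [h1, Finsupp.sum_mapRange_index h0]

theorem ev_single (z : Circle) (u : AddChar L Circle) (a : L) (q : RO O) :
    ev z u (AddMonoidAlgebra.single a q) = evR z q * (u a : ℂ) := by
  have h1 : spec z (AddMonoidAlgebra.single a q : AO O L) = AddMonoidAlgebra.single a (evR z q) := by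
    simp [spec]
  change evC u (spec z (AddMonoidAlgebra.single a q : AO O L)) = _
  rw [h1, evC_apply, AddMonoidAlgebra.coeff_single, Finsupp.sum_single_index (by simp)]

end

theorem rank_compl {O : Type} [CommRing O] [Coef O] {L : Type} [AddCommGroup L]
    [Module.Free ℤ L] [Module.Finite ℤ L] (G : AO O L) (h0 : G.coeff 0 ≠ 0) :
    rk (supp (compl G)) = rk (supp G) + 1 := by
  classical
  let f : (Submodule.span ℤ (supp G)) × ℤ →ₗ[ℤ] L × ℤ :=
    LinearMap.prodMap (Submodule.span ℤ (supp G)).subtype LinearMap.id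
  have hf : Function.Injective f := by
    intro x y hxy
    have h1 : ((x.1 : L), x.2) = ((y.1 : L), y.2) := hxy
    rw [Prod.mk.injEq] at h1
    exact Prod.ext (Subtype.ext h1.1) h1.2
  have hr : LinearMap.range f = Submodule.span ℤ (supp (compl G)) := by
    apply le_antisymm
    · rintro _ ⟨⟨x, k⟩, rfl⟩
      have h1 : f (x, k) = ((x : L), (0 : ℤ)) + k • ((0 : L), (1 : ℤ)) := by
        change ((x : L), k) = _
        simp
      rw [h1]
      refine Submodule.add_mem _ ?_ (Submodule.smul_mem _ _ (Submodule.subset_span ?_))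
      · have h2 : (Submodule.span ℤ (supp G)).map (LinearMap.inl ℤ L ℤ) ≤
            Submodule.span ℤ (supp (compl G)) := by
          rw [Submodule.map_span]
          apply Submodule.span_mono
          rintro _ ⟨a, ha, rfl⟩
          exact (supp_compl G _).mpr (Or.inl ⟨rfl, ha⟩)
        exact h2 ⟨(x : L), x.2, rfl⟩
      · refine (supp_compl G _).mpr (Or.inr ⟨rfl, ?_⟩)
        change G.coeff (-0) ≠ 0
        rw [neg_zero]
        exact h0
    · rw [Submodule.span_le]
      intro x hx
      rcases (supp_compl G x).mp hx with ⟨h1, h2⟩ | ⟨h1, h2⟩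
      · exact ⟨(⟨x.1, Submodule.subset_span h2⟩, x.2), rfl⟩
      · exact ⟨(⟨x.1, by
          rw [← neg_neg x.1]
          exact Submodule.neg_mem _ (Submodule.subset_span h2)⟩, x.2), rfl⟩
  have h1 : Module.finrank ℤ (LinearMap.range f) =
      Module.finrank ℤ ((Submodule.span ℤ (supp G)) × ℤ) := LinearMap.finrank_range_of_inj hf
  rw [hr, Module.finrank_prod, Module.finrank_self] at h1
  exact h1

theorem cst (_hS : StSpecS) (hSh : SharpS) : ComplS := by
  intro O _ _ _ _ L _ _ _ G hG
  obtain ⟨h0, lam, hpos, hz⟩ := hG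
  have hc0 : (compl G).coeff 0 = G.coeff 0 := by
    have h1 := compl_coeff G 0 0
    rw [if_pos rfl] at h1
    exact h1
  have hrr : ∀ q : RO O, rsh (rsh q) = q := by
    intro q
    have h1 := (hSh O L (AddMonoidAlgebra.single 0 q)).2.1
    rw [sharp_single, sharp_single, neg_zero, neg_zero] at h1
    exact AddMonoidAlgebra.single_right_inj.mp h1
  have hev : ∀ (z : Circle) (q : RO O), evR z (rsh q) = (starRingEnd ℂ) (evR z q) := by
    intro z q
    have h1 := (hSh O L (AddMonoidAlgebra.single 0 q)).1 z (0 : AddChar L Circle)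
    rw [sharp_single, ev_single, ev_single] at h1
    simpa using h1
  have hnn : ∀ a ∈ G.coeff.support, 0 ≤ lam a := by
    intro a ha
    by_cases h : a = 0
    · rw [h, map_zero]
    · exact (hpos a ha h).le
  refine ⟨?_, ?_, hc0, fun x hx => (supp_compl G x).mp hx, rank_compl G h0⟩
  · -- stability
    set m : ℕ := G.coeff.support.sup fun a => (lam a).toNat with hm
    have hml : ∀ a ∈ G.coeff.support, lam a ≤ m := by
      intro a ha
      have h1 : (lam a).toNat ≤ m := Finset.le_sup (f := fun a => (lam a).toNat) ha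
      have h2 := hnn a ha
      omega
    let lam' : L × ℤ →+ ℤ := lam.comp (AddMonoidHom.fst L ℤ) +
      ((m : ℤ) + 1) • AddMonoidHom.snd L ℤ
    have hlam' : ∀ (a : L) (k : ℤ), lam' (a, k) = lam a + ((m : ℤ) + 1) * k := by
      intro a k
      simp [lam']
    refine ⟨by rw [hc0]; exact h0, lam', ?_, ?_⟩
    · intro x hx hx0
      obtain ⟨a, k⟩ := x
      have hx' : (a, k) ∈ supp (compl G) := Finsupp.mem_support_iff.mp hx
      rcases (supp_compl G _).mp hx' with ⟨h1, h2⟩ | ⟨h1, h2⟩
      · have h1' : k = 0 := h1
        subst h1'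
        rw [hlam']
        have ha : a ≠ 0 := by
          rintro rfl
          exact hx0 rfl
        have := hpos a (Finsupp.mem_support_iff.mpr h2) ha
        omega
      · have h1' : k = 1 := h1
        subst h1'
        have h3 := hml (-a) (Finsupp.mem_support_iff.mpr h2)
        rw [map_neg] at h3
        rw [hlam']
        omega
    · intro z hz0 u' s hs
      rw [hc0] at hz0
      set u : AddChar L Circle := u'.compAddMonoidHom (AddMonoidHom.inl L ℤ) with hu
      set y : Circle := u' ((0 : L), (1 : ℤ)) with hy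
      have hua : ∀ a : L, u' (a, (0 : ℤ)) = u a := fun a => rfl
      have hua1 : ∀ a : L, u' (-a, (1 : ℤ)) = (u a)⁻¹ * y := by
        intro a
        have h1 : ((-a, (1 : ℤ)) : L × ℤ) = (-a, (0 : ℤ)) + ((0 : L), (1 : ℤ)) := by simp
        rw [h1, AddChar.map_add_eq_mul, hua, AddChar.map_neg_eq_inv]
      have hzf : ∀ s : ℂ, ‖s‖ < 1 → (sl u lam (spec z G)).eval s ≠ 0 := hz z hz0 u
      have e1 : (sl u' lam' (spec z (compl G))).eval s =
          G.coeff.sum fun a q => evR z q * (u a : ℂ) * s ^ (lam a).toNat +
            (starRingEnd ℂ) (evR z q) * ((starRingEnd ℂ) (u a : ℂ) * (y : ℂ)) *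
              s ^ ((m : ℤ) + 1 - lam a).toNat := by
        rw [sl_eval, spec_sum _ _ _ (by intro x; simp), csum _ (by intro x; simp)
          (by intro x q r; rw [map_add]; ring)]
        refine Finsupp.sum_congr fun a _ => ?_
        rw [hua, hua1, hlam', hlam', hev, map_neg]
        have h2 : (((u a)⁻¹ * y : Circle) : ℂ) = (starRingEnd ℂ) (u a : ℂ) * (y : ℂ) := by
          rw [Circle.coe_mul, Circle.coe_inv_eq_conj]
        rw [h2]
        have h3 : -lam a + ((m : ℤ) + 1) * 1 = (m : ℤ) + 1 - lam a := by ring
        have h4 : lam a + ((m : ℤ) + 1) * 0 = lam a := by ring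
        rw [h3, h4]
      have e2 : (sl u lam (spec z G)).eval s =
          G.coeff.sum fun a q => evR z q * (u a : ℂ) * s ^ (lam a).toNat := by
        rw [sl_eval, spec_sum _ _ _ (by intro x; simp)]
      rw [e1, Finsupp.sum_add, ← e2]
      by_cases hs0 : s = 0
      · subst hs0
        have h5 : (G.coeff.sum fun a q => (starRingEnd ℂ) (evR z q) *
            ((starRingEnd ℂ) (u a : ℂ) * (y : ℂ)) * (0 : ℂ) ^ ((m : ℤ) + 1 - lam a).toNat) = 0 := by
          refine Finset.sum_eq_zero fun a ha => ?_
          have h6 := hml a ha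
          have h7 : ((m : ℤ) + 1 - lam a).toNat ≠ 0 := by omega
          have h8 : (0 : ℂ) ^ ((m : ℤ) + 1 - lam a).toNat = 0 := zero_pow h7
          simp only [h8, mul_zero]
        rw [h5, add_zero]
        exact hzf 0 hs
      · have hcs : (starRingEnd ℂ) s ≠ 0 := (map_ne_zero _).mpr hs0
        have h5 : (G.coeff.sum fun a q => (starRingEnd ℂ) (evR z q) *
            ((starRingEnd ℂ) (u a : ℂ) * (y : ℂ)) * s ^ ((m : ℤ) + 1 - lam a).toNat) =
            (y : ℂ) * s ^ (m + 1) *
              (starRingEnd ℂ) ((sl u lam (spec z G)).eval ((starRingEnd ℂ) s)⁻¹) := by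
          rw [sl_eval, spec_sum _ _ _ (by intro x; simp), Finsupp.sum, Finsupp.sum, map_sum,
            Finset.mul_sum]
          refine Finset.sum_congr rfl fun a ha => ?_
          rw [map_mul, map_mul, map_pow, map_inv₀, Complex.conj_conj]
          have h6 := hml a ha
          have h7 := hnn a ha
          obtain ⟨k, hk⟩ := Int.eq_ofNat_of_zero_le h7
          have hk' : (lam a).toNat = k := by omega
          have h8 : ((m : ℤ) + 1 - lam a).toNat = m + 1 - k := by omega
          have h9 : k ≤ m + 1 := by omega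
          rw [h8, hk', inv_pow]
          have h10 : s ^ (m + 1) * (s ^ k)⁻¹ = s ^ (m + 1 - k) := by
            rw [pow_sub₀ s hs0 h9]
          rw [← h10]
          ring
        rw [h5]
        have hdeg : (sl u lam (spec z G)).natDegree < m + 1 := by
          refine Nat.lt_succ_of_le ?_
          rw [sl]
          refine Polynomial.natDegree_sum_le_of_forall_le _ _ fun a ha => ?_
          refine (Polynomial.natDegree_monomial_le _).trans ?_
          have h6 : a ∈ G.coeff.support := by
            rw [Finsupp.mem_support_iff] at ha ⊢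
            intro h
            apply ha
            rw [spec_coeff, h, map_zero]
          exact Finset.le_sup (f := fun a => (lam a).toNat) h6
        exact refl_ne _ hzf (m + 1) hdeg s y hs0 hs (Circle.norm_coe y)
  · -- unitarity
    have h1 : sharp (compl G) = mon ((0 : L), (-1 : ℤ)) * compl G := by
      clear hz hpos h0 hc0 hnn
      induction G using AddMonoidAlgebra.induction_linear with
      | zero => rw [compl_zero, map_zero, mul_zero]
      | add G H hG hH => rw [compl_add, map_add, hG, hH, mul_add]
      | single a q =>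
        rw [compl_single, map_add, sharp_single, sharp_single, hrr, mul_add, mon,
          AddMonoidAlgebra.single_mul_single, AddMonoidAlgebra.single_mul_single, one_mul, one_mul,
          add_comm]
        simp
    have hu : IsUnit (mon ((0 : L), (-1 : ℤ)) : AO O (L × ℤ)) := by
      refine IsUnit.of_mul_eq_one (mon ((0 : L), (1 : ℤ))) ?_
      have h2 : ((0 : L), (-1 : ℤ)) + ((0 : L), (1 : ℤ)) = 0 := by simp
      rw [mon, mon, AddMonoidAlgebra.single_mul_single, one_mul, h2]
      rfl
    rw [Unitary, h1]
    obtain ⟨v, hv⟩ := hu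
    rw [← hv]
    exact ⟨v⁻¹, by rw [mul_comm (v : AO O (L × ℤ)), mul_assoc, Units.mul_inv, mul_one]⟩

end Pool.Agent.B5.H59
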