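import Pool.Agent.Lib.MP_b5021c_nt.IfaceD

/-!
# Board b5, row D1E: a pointed thin finite set is in the cone of its exposed elements
-/

namespace Pool.Agent.B5.H59

theorem d1e (hD2 : D2S) : D1S := by
  intro L _ _ _ S hlam hthin
  obtain ⟨lam0, hlam0⟩ := hlam
  classical
  let Q : Finset L → Prop := fun T => T ⊆ S ∧ ∀ a ∈ S, ∃ n : ℕ, 0 < n ∧
    n • a ∈ AddSubmonoid.closure (T : Set L)
  have hQS : Q S := ⟨Finset.Subset.refl S, fun a ha => ⟨1, one_pos, by
    rw [one_nsmul]
    exact AddSubmonoid.subset_closure (Finset.mem_coe.mpr ha)⟩⟩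
  obtain ⟨T, hTmem, hTmin⟩ := Finset.exists_min_image (S.powerset.filter Q) Finset.card
    ⟨S, Finset.mem_filter.mpr ⟨Finset.mem_powerset_self S, hQS⟩⟩
  have hT : Q T := (Finset.mem_filter.mp hTmem).2
  have key : ∀ b ∈ T, b ∈ Expd S := by
    intro b hb
    have hbS : b ∈ S := hT.1 hb
    rcases hD2 L (S.erase b) (Submodule.span ℤ {b}) with ⟨lam, hK, hpos⟩ | ⟨c, ⟨a0, ha0, hc0⟩, hsum⟩
    · exact ⟨hbS, lam, hK b (Submodule.subset_span (Set.mem_singleton b)),
        fun a ha hab => hpos a (Finset.mem_erase.mpr ⟨hab, ha⟩)⟩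
    · exfalso
      have hT2 := hT.2
      choose! n hn using hT2
      set N : ℕ := ∏ a ∈ S, n a with hNdef
      have hN : 0 < N := Finset.prod_pos fun a ha => (hn a ha).1
      have hNa : ∀ a ∈ S, ∃ f : L → ℕ, ∑ s ∈ T, f s • s = N • a := by
        intro a ha
        have h1 : N • a ∈ AddSubmonoid.closure (T : Set L) := by
          rw [hNdef, ← Finset.mul_prod_erase S n ha, mul_comm, mul_smul]
          exact nsmul_mem (hn a ha).2 _
        obtain ⟨f, -, hf⟩ := AddSubmonoid.mem_closure_finset.mp h1
        exact ⟨f, hf⟩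
      choose! m hm using hNa
      obtain ⟨t, ht⟩ := Submodule.mem_span_singleton.mp hsum
      set Mc : L → ℕ := fun s => ∑ a ∈ S.erase b, c a * m a s with hMc
      have e1 : ((N : ℤ) * t) • b = ∑ s ∈ T, Mc s • s := by
        rw [mul_smul, ht, natCast_zsmul, Finset.smul_sum]
        calc ∑ a ∈ S.erase b, N • c a • a = ∑ a ∈ S.erase b, c a • ∑ s ∈ T, m a s • s := by
              refine Finset.sum_congr rfl fun a ha => ?_
              rw [hm a (Finset.mem_of_mem_erase ha), smul_smul, smul_smul, mul_comm]
          _ = ∑ a ∈ S.erase b, ∑ s ∈ T, (c a * m a s) • s := by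
              refine Finset.sum_congr rfl fun a _ => ?_
              rw [Finset.smul_sum]
              exact Finset.sum_congr rfl fun s _ => by rw [mul_smul]
          _ = ∑ s ∈ T, Mc s • s := by
              rw [Finset.sum_comm]
              refine Finset.sum_congr rfl fun s _ => ?_
              rw [hMc, Finset.sum_smul]
      have e2 : ((N : ℤ) * t - (Mc b : ℤ)) • b = ∑ s ∈ T.erase b, Mc s • s := by
        rw [sub_smul, e1, ← Finset.add_sum_erase T _ hb, natCast_zsmul, add_sub_cancel_left]
      rcases lt_or_ge 0 ((N : ℤ) * t - (Mc b : ℤ)) with hpos | hneg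
      · obtain ⟨q, hq⟩ := Int.eq_ofNat_of_zero_le hpos.le
        have hq0 : 0 < q := by
          have : (0 : ℤ) < q := by rw [← hq]; exact hpos
          exact_mod_cast this
        rw [hq, natCast_zsmul] at e2
        have hqb : q • b ∈ AddSubmonoid.closure ((T.erase b : Finset L) : Set L) := by
          rw [e2]
          exact sum_mem fun s hs => nsmul_mem (AddSubmonoid.subset_closure (Finset.mem_coe.mpr hs)) _
        have hQ' : Q (T.erase b) := by
          refine ⟨(Finset.erase_subset b T).trans hT.1, fun a ha => ⟨q * N, Nat.mul_pos hq0 hN, ?_⟩⟩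
          rw [mul_smul, ← hm a ha, ← Finset.add_sum_erase T _ hb, smul_add, smul_smul, mul_comm q,
            mul_smul]
          refine add_mem (nsmul_mem hqb _) (nsmul_mem (sum_mem fun s hs => ?_) _)
          exact nsmul_mem (AddSubmonoid.subset_closure (Finset.mem_coe.mpr hs)) _
        have h1 := hTmin (T.erase b) (Finset.mem_filter.mpr
          ⟨Finset.mem_powerset.mpr hQ'.1, hQ'⟩)
        have h2 := Finset.card_erase_lt_of_mem hb
        omega
      · have hb0 := hlam0 b hbS
        have e3 : ((N : ℤ) * t - (Mc b : ℤ)) * lam0 b = ∑ s ∈ T.erase b, (Mc s : ℤ) * lam0 s := by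
          have h1 := congrArg lam0 e2
          rw [map_zsmul, map_sum, smul_eq_mul] at h1
          rw [h1]
          exact Finset.sum_congr rfl fun s _ => by rw [map_nsmul, nsmul_eq_mul]
        have hnn : ∀ s ∈ T.erase b, 0 ≤ (Mc s : ℤ) * lam0 s := fun s hs =>
          mul_nonneg (Int.natCast_nonneg _) (hlam0 s (hT.1 (Finset.mem_of_mem_erase hs))).le
        have h0 : ∑ s ∈ T.erase b, (Mc s : ℤ) * lam0 s = 0 := by
          refine le_antisymm ?_ (Finset.sum_nonneg hnn)
          rw [← e3]
          exact mul_nonpos_of_nonpos_of_nonneg hneg hb0.le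
        have hz : ∀ s ∈ T.erase b, Mc s = 0 := by
          intro s hs
          have h1 := (Finset.sum_eq_zero_iff_of_nonneg hnn).mp h0 s hs
          rcases mul_eq_zero.mp h1 with h2 | h2
          · exact_mod_cast h2
          · exact absurd h2 (hlam0 s (hT.1 (Finset.mem_of_mem_erase hs))).ne'
        have ha0S : a0 ∈ S := Finset.mem_of_mem_erase ha0
        have hm0 : ∀ s ∈ T.erase b, m a0 s = 0 := by
          intro s hs
          have h1 : ∑ a ∈ S.erase b, c a * m a s = 0 := hz s hs
          have h2 := (Finset.sum_eq_zero_iff.mp h1) a0 ha0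
          rcases mul_eq_zero.mp h2 with h3 | h3
          · exact absurd h3 hc0
          · exact h3
        have e4 : N • a0 = m a0 b • b := by
          rw [← hm a0 ha0S, ← Finset.add_sum_erase T _ hb, Finset.sum_eq_zero, add_zero]
          intro s hs
          rw [hm0 s hs, zero_smul]
        have hmb : 0 < m a0 b := by
          rcases Nat.eq_zero_or_pos (m a0 b) with h1 | h1
          · exfalso
            rw [h1, zero_smul] at e4
            have h2 := congrArg lam0 e4
            rw [map_nsmul, map_zero, nsmul_eq_mul] at h2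
            have h3 : (0 : ℤ) < (N : ℤ) * lam0 a0 :=
              mul_pos (by exact_mod_cast hN) (hlam0 a0 ha0S)
            omega
          · exact h1
        have h5 := hthin a0 (Finset.mem_coe.mpr ha0S) b (Finset.mem_coe.mpr hbS) N (m a0 b) hN hmb e4
        exact (Finset.ne_of_mem_erase ha0) h5
  intro a ha
  obtain ⟨n, hn, h⟩ := hT.2 a ha
  exact ⟨n, hn, AddSubmonoid.closure_mono (fun b hb => key b (Finset.mem_coe.mp hb)) h⟩

end Pool.Agent.B5.H59
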