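import Pool.Agent.Lib.MP_b5021c_nt.IfaceG

/-!
# Board b5, row THI: sets of exponents in `W(I,J)` are thin
-/

namespace Pool.Agent.B5.H59

theorem wval {P L : Type} [Fintype P] [DecidableEq P] [AddCommGroup L] (phi : L →+ (P → ℤ))
    (I J : Finset P) (a : L) (h : WW phi I J a) (i : P) :
    phi a i = 0 ∨ phi a i = 1 ∨ phi a i = -1 := by
  obtain ⟨h1, h2, h3⟩ := h
  by_cases hJ : i ∈ J
  · rcases h1 i hJ with h | h
    · exact Or.inl h
    · exact Or.inr (Or.inl h)
  · by_cases hI : i ∈ I
    · rcases h2 with h2 | h2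
      · rcases h2 i hI with h | h
        · exact Or.inl h
        · exact Or.inr (Or.inl h)
      · rcases h2 i hI with h | h
        · exact Or.inl h
        · exact Or.inr (Or.inr h)
    · exact Or.inl (h3 i hI hJ)

theorem thi : ThinS := by
  intro P L _ _ _ _ _ phi I J T hinj hT a ha b hb m n hm hn hmn
  apply hinj
  funext i
  have e : (m : ℤ) * phi a i = (n : ℤ) * phi b i := by
    have h1 : phi (m • a) i = phi (n • b) i := by rw [hmn]
    rw [map_nsmul, map_nsmul] at h1
    simpa using h1
  have hm' : (0 : ℤ) < m := by exact_mod_cast hm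
  have hn' : (0 : ℤ) < n := by exact_mod_cast hn
  rcases wval phi I J a (hT a ha) i with h | h | h <;>
    rcases wval phi I J b (hT b hb) i with h' | h' | h' <;>
    rw [h, h'] at e <;> rw [h, h'] <;> omega

end Pool.Agent.B5.H59
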