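import Pool.Agent.Lib.MP_b5021c_nt.IfaceS2

/-!
# Board b5, stage 2, row T_LPB: loads of type B in class `P`
-/

namespace Pool.Agent.B5.H59

open Polynomial
open Pool.Agent.MP_b5021c_nt (Eis)

/-- A load of type B: either no zero is left in the disc, or exactly one zero `T'⁻¹`, which satisfies
`(T - T') (T' + v h) = v c T'` with `|h| ≤ 3`. -/
theorem lpb_rel (hPCZ : PCZS) (θ : ℝ) (q f : Eis[X]) (s r : ℂ[X]) (T c : ℂ)
    (hd : PDat θ q f s r T c) (v : Eisˣ) :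
    ClassV 1 (toLaurent (q + C (v : Eis) * X * f)) ∨
      ∃ T' h : ℂ, 1 < ‖T'‖ ∧ ‖h‖ ≤ 3 ∧
        (T - T') * (T' + Eis.emb (v : Eis) * h) = Eis.emb (v : Eis) * c * T' ∧
        ClassP ‖T'‖ (toLaurent (q + C (v : Eis) * X * f)) := by
  obtain ⟨hθ, hq1, hf0, hnz', hroots, hTn, hle', hne', hs, hY, hsnz, hrb, hcb, hr0, -⟩ := hd
  obtain ⟨qc, hqc⟩ : ∃ qc : ℂ[X], qc = q.map (Coef.emb : Eis →+* ℂ) := ⟨_, rfl⟩
  obtain ⟨fc, hfc⟩ : ∃ fc : ℂ[X], fc = f.map (Coef.emb : Eis →+* ℂ) := ⟨_, rfl⟩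
  change (q.map (Coef.emb : Eis →+* ℂ)) = _ at hs
  change (f.map (Coef.emb : Eis →+* ℂ)) = _ at hY
  change ∀ z : ℂ, ‖z‖ = 1 → (q.map (Coef.emb : Eis →+* ℂ)).eval z ≠ 0 at hnz'
  change (q.map (Coef.emb : Eis →+* ℂ)).roots.filter _ = _ at hroots
  change ∀ z : ℂ, ‖z‖ = 1 → ‖(f.map (Coef.emb : Eis →+* ℂ)).eval z‖ ≤
    ‖(q.map (Coef.emb : Eis →+* ℂ)).eval z‖ at hle'
  change ‖(Coef.emb (q.coeff 0) : ℂ)‖ = 1 at hq1
  rw [← hqc] at hnz' hle' hroots hs
  rw [← hfc] at hle' hY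
  have hvn : ‖(Coef.emb (v : Eis) : ℂ)‖ = 1 := Eis.norm_emb_unit v.isUnit
  obtain ⟨e, he⟩ : ∃ e : ℂ, e = Coef.emb (v : Eis) := ⟨_, rfl⟩
  rw [← he] at hvn
  have hVc : (q + C (v : Eis) * X * f).map (Coef.emb : Eis →+* ℂ) = qc + C e * X * fc := by
    rw [Polynomial.map_add, Polynomial.map_mul, Polynomial.map_mul, map_C, map_X, hqc, hfc, he]
  have hV0 : (q + C (v : Eis) * X * f).coeff 0 = q.coeff 0 := by
    rw [coeff_add, mul_coeff_zero, mul_coeff_zero, coeff_X_zero]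
    ring
  have hlau : toLaurent (q + C (v : Eis) * X * f) =
      LaurentPolynomial.T 0 * toLaurent (q + C (v : Eis) * X * f) := by
    rw [LaurentPolynomial.T_zero, one_mul]
  have hne0 : qc + C e * X * fc ≠ 0 := by
    intro h1
    rw [← hVc] at h1
    have h2 := congrArg (fun p : ℂ[X] => p.coeff 0) h1
    simp only [coeff_map, coeff_zero] at h2
    rw [hV0] at h2
    rw [h2, norm_zero] at hq1
    exact one_ne_zero hq1.symm
  have hcard := hPCZ T⁻¹ qc (C e * X * fc) hroots hnz'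
    (by
      intro z hz
      rw [eval_mul, eval_mul, eval_C, eval_X, norm_mul, norm_mul, hvn, hz, one_mul, one_mul]
      exact hle' z hz) hne0
  rcases Nat.eq_zero_or_pos ((qc + C e * X * fc).roots.filter (fun x => ‖x‖ < 1)).card
    with h1 | h1
  · -- no zero
    left
    refine ⟨le_rfl, 0, _, hlau, ?_, ?_⟩
    · rw [hV0]; exact hq1
    · intro z hz h2
      rw [hVc] at h2
      rw [Multiset.card_eq_zero] at h1
      have h3 : z ∈ (qc + C e * X * fc).roots.filter (fun x => ‖x‖ < 1) := by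
        rw [Multiset.mem_filter]
        exact ⟨(mem_roots hne0).mpr h2, hz⟩
      rw [h1] at h3
      exact absurd h3 (Multiset.notMem_zero z)
  · -- one zero
    right
    have h2 : ((qc + C e * X * fc).roots.filter (fun x => ‖x‖ < 1)).card = 1 := by omega
    obtain ⟨b, hb⟩ := Multiset.card_eq_one.mp h2
    have hbm : b ∈ (qc + C e * X * fc).roots.filter (fun x => ‖x‖ < 1) := by
      rw [hb]; simp
    rw [Multiset.mem_filter] at hbm
    have hbroot : (qc + C e * X * fc).eval b = 0 := (mem_roots hne0).mp hbm.1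
    have hb0 : b ≠ 0 := by
      rintro rfl
      rw [← hVc, ← coeff_zero_eq_eval_zero, coeff_map, hV0] at hbroot
      rw [hbroot, norm_zero] at hq1
      exact one_ne_zero hq1.symm
    have hbpos : 0 < ‖b‖ := norm_pos_iff.mpr hb0
    have hbinv : 1 < ‖b‖⁻¹ := (one_lt_inv₀ hbpos).mpr hbm.2
    have hsb : s.eval b ≠ 0 := hsnz b hbm.2.le
    obtain ⟨h, hh⟩ : ∃ h : ℂ, h = r.eval b / s.eval b := ⟨_, rfl⟩
    have hrs : r.eval b = h * s.eval b := by rw [hh]; field_simp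
    have hh3 : ‖h‖ ≤ 3 := by
      rw [hh, norm_div, div_le_iff₀ (norm_pos_iff.mpr hsb)]
      exact hrb b hbm.2.le
    refine ⟨b⁻¹, h, by rw [norm_inv]; exact hbinv, hh3, ?_, by rw [norm_inv]; exact hbinv, 0, _,
      hlau, ?_, b, ?_, ?_⟩
    · change (T - b⁻¹) * (b⁻¹ + Coef.emb (v : Eis) * h) = Coef.emb (v : Eis) * c * b⁻¹
      rw [← he]
      have h4 : ((1 - T * b) * (1 + e * h * b) + e * c * b) * s.eval b = 0 := by
        have h5 := hbroot
        rw [hs, hY] at h5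
        simp only [eval_add, eval_mul, eval_sub, eval_one, eval_C, eval_X] at h5
        rw [hrs] at h5
        linear_combination h5
      have h6 : (1 - T * b) * (1 + e * h * b) + e * c * b = 0 :=
        (mul_eq_zero.mp h4).resolve_right hsb
      have h9 : (T - b⁻¹) = -((1 - T * b) * b⁻¹) := by
        field_simp
        ring
      have h10 : b⁻¹ + e * h = b⁻¹ * (1 + e * h * b) := by
        field_simp
      have h11 : e * c * b⁻¹ = e * c * b * b⁻¹ * b⁻¹ := by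
        field_simp
      rw [h9, h10, h11]
      linear_combination (-b⁻¹ * b⁻¹) * h6
    · rw [hV0]; exact hq1
    · rw [norm_inv, inv_inv]
    · rw [hVc]; exact hb

/-- Row T_LPB. -/
theorem t_lpb (hPCZ : PCZS) (hReb : RebS) : LpbS := by
  intro θ q f s r T c hθ hd hc v
  have hvn : ‖Eis.emb (v : Eis)‖ = 1 := Eis.norm_emb_unit v.isUnit
  have hT : ‖T‖ = θ := hd.nT
  have hcT : ‖c‖ ≤ ‖T‖ := by
    have h1 := hd.cT
    have h2 : 0 < 1 / θ := by positivity
    linarith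
  rcases lpb_rel hPCZ θ q f s r T c hd v with h | ⟨T', h, h1, h2, h3, h4⟩
  · exact ⟨fun _ _ => Or.inl h, fun _ _ => Or.inl h⟩
  · obtain ⟨hA, hB⟩ := hReb T T' c (Eis.emb (v : Eis)) h (by rw [hT]; exact hθ) h1 hvn h2 hc hcT h3
    rw [hT] at hA hB
    exact ⟨fun h5 h6 => Or.inr ⟨‖T'‖, hA h5 h6, h4⟩, fun h5 h6 => Or.inr ⟨‖T'‖, hB h5 h6, h4⟩⟩

end Pool.Agent.B5.H59
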