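import Pool.Agent.Lib.MP_b5021c_nt.IfaceS4
import Pool.Agent.Lib.MP_b5021c_nt.B.H59.Lpb

/-!
# Board b5, stage 2, row U_LB2: loads of type B in class `P`, final form
-/

namespace Pool.Agent.B5.H59

open Polynomial
open Pool.Agent.MP_b5021c_nt (Eis)

/-- Row U_LB2. -/
theorem u_lb2 (hPCZ : PCZS) (hRb : Rb2S) : Lb2S := by
  intro θ q f s r T c hθ hd v
  have hvn : ‖Eis.emb (v : Eis)‖ = 1 := Eis.norm_emb_unit v.isUnit
  have hT : ‖T‖ = θ := hd.nT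
  have hcT : ‖c‖ ≤ ‖T‖ := by
    have h1 := hd.cT
    have h2 : 0 < 1 / θ := by positivity
    linarith
  rcases lpb_rel hPCZ θ q f s r T c hd v with h | ⟨T', h, h1, h2, h3, h4⟩
  · exact ⟨fun _ _ _ => Or.inl h, fun _ _ _ => Or.inl h, fun _ _ => Or.inl h⟩
  · obtain ⟨hA, hB, hC⟩ := hRb T T' c (Eis.emb (v : Eis)) h (by rw [hT]; exact hθ) h1 hvn h2 hcT h3
    rw [hT] at hA hB hC
    exact ⟨fun a b c => Or.inr ⟨‖T'‖, hA a b c, h4⟩, fun a b c => Or.inr ⟨‖T'‖, hB a b c, h4⟩,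
      fun a b => Or.inr ⟨‖T'‖, hC a b, h4⟩⟩

end Pool.Agent.B5.H59
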