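import Pool.Agent.Lib.MP_b5021c_nt.B.H59.CstA

/-!
# Board b5, row CST, part B: the reflected polynomial of a zero-free polynomial
-/

namespace Pool.Agent.B5.H59

open Polynomial

theorem one_sub_le {s r : ℂ} (hs : ‖s‖ ≤ 1) (hr : 1 ≤ ‖r‖) :
    ‖1 - (starRingEnd ℂ) s * r‖ ≤ ‖s - r‖ := by
  have h1 : ‖1 - (starRingEnd ℂ) s * r‖ ^ 2 ≤ ‖s - r‖ ^ 2 := by
    have hs2 : ‖s‖ ^ 2 ≤ 1 := by nlinarith [norm_nonneg s]
    have hr2 : 1 ≤ ‖r‖ ^ 2 := by nlinarith [norm_nonneg r]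
    rw [Complex.sq_norm, Complex.normSq_apply] at hs2 hr2
    rw [Complex.sq_norm, Complex.sq_norm, Complex.normSq_apply, Complex.normSq_apply]
    simp only [Complex.sub_re, Complex.one_re, Complex.mul_re, Complex.conj_re, Complex.conj_im,
      Complex.sub_im, Complex.one_im, Complex.mul_im]
    nlinarith [mul_nonneg (sub_nonneg.mpr hr2) (sub_nonneg.mpr hs2)]
  exact (pow_le_pow_iff_left₀ (norm_nonneg _) (norm_nonneg _) two_ne_zero).mp h1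

theorem refl_le : ∀ (n : ℕ) (p : ℂ[X]), p.natDegree = n →
    (∀ s : ℂ, ‖s‖ < 1 → p.eval s ≠ 0) → ∀ s : ℂ, s ≠ 0 → ‖s‖ ≤ 1 →
      ‖s‖ ^ n * ‖p.eval ((starRingEnd ℂ) s)⁻¹‖ ≤ ‖p.eval s‖ := by
  intro n
  induction n with
  | zero =>
    intro p hp _ s _ _
    rw [Polynomial.eq_C_of_natDegree_eq_zero hp]
    simp
  | succ n ih =>
    intro p hp hz s hs0 hs
    have hd : p.degree ≠ 0 := by
      intro h
      have := Polynomial.natDegree_eq_zero_iff_degree_le_zero.mpr h.le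
      omega
    obtain ⟨r, hr⟩ := IsAlgClosed.exists_root p hd
    obtain ⟨q, hq⟩ := Polynomial.dvd_iff_isRoot.mpr hr
    have hq0 : q ≠ 0 := by
      rintro rfl
      rw [mul_zero] at hq
      rw [hq, Polynomial.natDegree_zero] at hp
      omega
    have hqd : q.natDegree = n := by
      rw [hq, Polynomial.natDegree_mul (Polynomial.X_sub_C_ne_zero r) hq0,
        Polynomial.natDegree_X_sub_C] at hp
      omega
    have hr1 : 1 ≤ ‖r‖ := by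
      by_contra h
      push Not at h
      exact hz r h hr
    have hqz : ∀ s : ℂ, ‖s‖ < 1 → q.eval s ≠ 0 := by
      intro s hs h
      apply hz s hs
      rw [hq, Polynomial.eval_mul, h, mul_zero]
    have h1 := ih q hqd hqz s hs0 hs
    have hc0 : (starRingEnd ℂ) s ≠ 0 := (_root_.map_ne_zero _).mpr hs0
    have h2 : ‖s‖ * ‖((starRingEnd ℂ) s)⁻¹ - r‖ ≤ ‖s - r‖ := by
      calc ‖s‖ * ‖((starRingEnd ℂ) s)⁻¹ - r‖
          = ‖(starRingEnd ℂ) s * (((starRingEnd ℂ) s)⁻¹ - r)‖ := by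
            rw [norm_mul, RCLike.norm_conj]
        _ = ‖1 - (starRingEnd ℂ) s * r‖ := by
            rw [mul_sub, mul_inv_cancel₀ hc0]
        _ ≤ ‖s - r‖ := one_sub_le hs hr1
    rw [hq, Polynomial.eval_mul, Polynomial.eval_mul, Polynomial.eval_sub, Polynomial.eval_X,
      Polynomial.eval_C, Polynomial.eval_sub, Polynomial.eval_X, Polynomial.eval_C, norm_mul,
      norm_mul, pow_succ]
    calc ‖s‖ ^ n * ‖s‖ * (‖((starRingEnd ℂ) s)⁻¹ - r‖ * ‖eval ((starRingEnd ℂ) s)⁻¹ q‖)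
        = (‖s‖ * ‖((starRingEnd ℂ) s)⁻¹ - r‖) * (‖s‖ ^ n * ‖eval ((starRingEnd ℂ) s)⁻¹ q‖) := by
          ring
      _ ≤ ‖s - r‖ * ‖eval s q‖ :=
          mul_le_mul h2 h1 (by positivity) (norm_nonneg _)

theorem refl_ne (p : ℂ[X]) (hz : ∀ s : ℂ, ‖s‖ < 1 → p.eval s ≠ 0) (c : ℕ) (hc : p.natDegree < c)
    (s y : ℂ) (hs0 : s ≠ 0) (hs : ‖s‖ < 1) (hy : ‖y‖ = 1) :
    p.eval s + y * s ^ c * (starRingEnd ℂ) (p.eval ((starRingEnd ℂ) s)⁻¹) ≠ 0 := by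
  intro h
  have h1 := refl_le p.natDegree p rfl hz s hs0 hs.le
  have h2 : ‖p.eval s‖ = ‖s‖ ^ c * ‖p.eval ((starRingEnd ℂ) s)⁻¹‖ := by
    rw [eq_neg_of_add_eq_zero_left h, norm_neg, norm_mul, norm_mul, hy, one_mul, norm_pow,
      RCLike.norm_conj]
  obtain ⟨d, hd⟩ := Nat.exists_eq_add_of_lt hc
  have h3 : ‖p.eval s‖ ≤ ‖s‖ ^ (d + 1) * ‖p.eval s‖ := by
    calc ‖p.eval s‖ = ‖s‖ ^ (d + 1) * (‖s‖ ^ p.natDegree * ‖p.eval ((starRingEnd ℂ) s)⁻¹‖) := by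
          rw [h2, hd]
          ring
      _ ≤ ‖s‖ ^ (d + 1) * ‖p.eval s‖ := mul_le_mul_of_nonneg_left h1 (by positivity)
  have h4 : 0 < ‖p.eval s‖ := norm_pos_iff.mpr (hz s hs)
  have h5 : ‖s‖ ^ (d + 1) < 1 := pow_lt_one₀ (norm_nonneg s) hs (Nat.succ_ne_zero d)
  have h6 : ‖s‖ ^ (d + 1) * ‖p.eval s‖ < 1 * ‖p.eval s‖ := mul_lt_mul_of_pos_right h5 h4
  rw [one_mul] at h6
  exact absurd h3 (not_le.mpr h6)

end Pool.Agent.B5.H59
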